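import Mathlib
import Pool.Agent.Run7.h510.G.Full
import Pool.Agent.Run7.h510.G.Cyc

/-!
Unconditional positive proportion of non-Wieferich places for the cyclotomic numbers `1 - ζ_m`.

Let `m ≥ 3` be a prime power, `K = ℚ(ζ_m)`. For all large `x`, at least `x / (37 m log x)` of the
primes `p ≤ x` (with `p > 2 m`) have a prime ideal `P ∣ p` of `𝓞 K` with
`(1 - ζ)^(N P - 1) ≢ 1 (mod P²)`.
-/

open NumberField

attribute [local instance] Classical.propDecidable

theorem Pool.Agent.Results.MP_4d5ce1_nt.CyclotomicNonWieferich.result :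
    ∀ m : ℕ, 3 ≤ m → IsPrimePow m → ∃ x₀ : ℕ, ∀ (K : Type*) [Field K] [NumberField K]
      [IsCyclotomicExtension {m} ℚ K] (ζ : 𝓞 K), IsPrimitiveRoot ζ m →
      ∀ x : ℕ, x₀ ≤ x →
        (x : ℝ) / (37 * m * Real.log x) ≤
          (((Finset.range (x + 1)).filter (fun p => p.Prime ∧ 2 * m < p ∧
            ∃ P : Ideal (𝓞 K), P.IsPrime ∧ (p : 𝓞 K) ∈ P ∧
              (1 - ζ) ^ (Ideal.absNorm P - 1) - 1 ∉ P ^ 2)).card : ℝ) := by
  intro m hm hpp
  obtain ⟨q, n, hq, -, hqn⟩ := (isPrimePow_nat_iff m).mp hpp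
  obtain ⟨x₀, hx₀⟩ := Run7.h510.G.full_density m 1 (by omega) (by norm_num) (by omega)
    (Nat.coprime_one_left m) hm
  refine ⟨max x₀ (80000 * m ^ 2), ?_⟩
  intro K _ _ _ ζ hζ x hx
  have hne : NeZero m := ⟨by omega⟩
  have hm0 : (0 : ℝ) < m := by
    have : 0 < m := by omega
    exact_mod_cast this
  let V : Run7.h510.G.Val := { D := 1, N := 0, hD := Nat.one_pos }
  have h1 := hx₀ x ((le_max_left _ _).trans hx) V (by
    have h2 : (80000 * (m : ℝ) ^ 2) ≤ x := by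
      exact_mod_cast (le_max_right _ _).trans hx
    have h3 : (1 : ℝ) ≤ (x : ℝ) / (80000 * (m : ℝ) ^ 2) := by
      rw [le_div_iff₀ (by positivity)]
      linarith
    have h4 := Real.add_one_le_exp ((x : ℝ) / (80000 * (m : ℝ) ^ 2))
    have h5 : V.ht = 2 := by
      unfold Run7.h510.G.Val.ht
      show 1 + ((1 : ℕ) : ℝ) + |((0 : ℤ) : ℝ)| = 2
      norm_num
    rw [h5]
    linarith)
  refine h1.trans ?_
  have h2 : ((Finset.range (x + 1)).filter (fun p => p.Prime ∧ 2 * m < p ∧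
      ∃ k < p, p ∣ m * k + 1 ∧
        ¬ padicNorm p ((V.D : ℚ) * harmonic k + V.N) ≤ (p : ℚ)⁻¹)).card ≤
      ((Finset.range (x + 1)).filter (fun p => p.Prime ∧ 2 * m < p ∧
            ∃ P : Ideal (𝓞 K), P.IsPrime ∧ (p : 𝓞 K) ∈ P ∧
              (1 - ζ) ^ (Ideal.absNorm P - 1) - 1 ∉ P ^ 2)).card := by
    apply Finset.card_le_card
    intro p hp
    rw [Finset.mem_filter] at hp ⊢
    obtain ⟨hp1, hp2, hp3, k, hk, hk1, hk2⟩ := hp
    refine ⟨hp1, hp2, hp3, ?_⟩
    by_contra hcon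
    push Not at hcon
    apply hk2
    have h3 := Run7.h510.G.Cyc.harm_of_wief hq hqn.symm hζ hp2 (by omega) (by omega) hcon hk hk1
    have h4 : ((V.D : ℚ) * harmonic k + V.N) = harmonic k := by
      show (((1 : ℕ) : ℚ) * harmonic k + ((0 : ℤ) : ℚ)) = harmonic k
      simp
    rw [h4]
    exact h3
  exact_mod_cast h2
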