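import Mathlib
import Pool.Agent.Run7.h720.P1Main

set_option autoImplicit false

/-!
# Vojta's truncated inequality on the projective line at sparse points

Let `K` be a number field, `T` a finite set of primes, `α l` (`l < q`) distinct points of the
projective line over `K` and `Γ` a finitely generated subgroup of the multiplicative group of `K`. A
point is called short if its coordinates are sums of `r` terms `c * γ` with the same `γ` in `Γ` for both
coordinates and coefficients `c` of height at most `B * H(x) ^ δ`. We prove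
`(q - 2 - ε) h(x) ≤ N_T(ρ) + N_T(τ) + C` for short points `x` and short `ρ`, any `τ`, such that outside
`T` the divisor of the `α l` at `x` is at most `m * (ρ) + (τ)`. If `ρ` has simple zeros at the primes
outside `T` where `x` meets one of the `α l` and no other zeros there, then `N_T(ρ)` is at most the
truncated counting function of `x`.
-/

namespace Pool.Agent.Results.MP_4d5ce1_nt.SparsePoints

open NumberField IsDedekindDomain Height
open Pool.Agent.W180.OP (fv fv_support_finite)

section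
variable {K : Type} [Field K] [NumberField K]

/-- `z` is a sum of `r` terms `c * γ` with `γ` in `Γ` and `c` of (multiplicative, relative) height at
most `R`. -/
def IsShort (Γ : Subgroup Kˣ) (r : ℕ) (R : ℝ) (z : K) : Prop :=
  ∃ (c : Fin r → K) (γ : Fin r → Kˣ), (∀ j, γ j ∈ Γ) ∧ (∀ j, mulHeight₁ (c j) ≤ R) ∧
    z = ∑ j, c j * (γ j : K)

/-- The vector `x` is a sum of `r` terms `γ • c` with `γ` in `Γ` and `c` a vector with entries of
(multiplicative, relative) height at most `R`. -/
def IsShortPoint (Γ : Subgroup Kˣ) (r : ℕ) (R : ℝ) (x : Fin 2 → K) : Prop :=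
  ∃ (c : Fin r → Fin 2 → K) (γ : Fin r → Kˣ), (∀ j, γ j ∈ Γ) ∧ (∀ j i, mulHeight₁ (c j i) ≤ R) ∧
    ∀ i, x i = ∑ j, c j i * (γ j : K)

/-- the absolute logarithmic height of a point -/
noncomputable def h (x : Fin 2 → K) : ℝ := logHeight x / (Module.finrank ℚ K : ℝ)

/-- the order of the zero of `z` at a prime, `- log ‖z‖_v` -/
noncomputable def ord (v : HeightOneSpectrum (𝓞 K)) (z : K) : ℝ :=
  -Real.log (FinitePlace.mk v z) / (Module.finrank ℚ K : ℝ)

/-- the local height `λ_v(α, x)` at a prime -/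
noncomputable def lam (v : HeightOneSpectrum (𝓞 K)) (α : K × K) (x : Fin 2 → K) : ℝ :=
  Real.log (max (FinitePlace.mk v (x 0)) (FinitePlace.mk v (x 1)) *
    max (FinitePlace.mk v α.1) (FinitePlace.mk v α.2) /
      FinitePlace.mk v (x 0 * α.2 - x 1 * α.1)) / (Module.finrank ℚ K : ℝ)

/-- the truncated local height -/
noncomputable def lam1 (v : HeightOneSpectrum (𝓞 K)) (α : K × K) (x : Fin 2 → K) : ℝ :=
  min (lam v α x) (Real.log (Ideal.absNorm v.asIdeal : ℝ) / (Module.finrank ℚ K : ℝ))

theorem max_support (a b : K) (h : ¬ (a = 0 ∧ b = 0)) :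
    {v : HeightOneSpectrum (𝓞 K) | max (fv v a) (fv v b) ≠ 1}.Finite := by
  by_cases ha : a = 0
  · have hb : b ≠ 0 := fun hb => h ⟨ha, hb⟩
    refine (fv_support_finite hb).subset fun v hv hv2 => hv ?_
    rw [ha, map_zero, hv2]
    exact max_eq_right zero_le_one
  · by_cases hb : b = 0
    · refine (fv_support_finite ha).subset fun v hv hv2 => hv ?_
      rw [hb, map_zero, hv2]
      exact max_eq_left zero_le_one
    · refine ((fv_support_finite ha).union (fv_support_finite hb)).subset fun v hv => ?_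
      by_contra hcon
      rw [Set.mem_union, not_or] at hcon
      apply hv
      have h1 : fv v a = 1 := not_not.1 hcon.1
      have h2 : fv v b = 1 := not_not.1 hcon.2
      rw [h1, h2, max_self]

theorem lam_support (α : K × K) (hα : α ≠ 0) (x : Fin 2 → K) (hx : x ≠ 0)
    (h : x 0 * α.2 - x 1 * α.1 ≠ 0) :
    {v : HeightOneSpectrum (𝓞 K) | lam v α x ≠ 0}.Finite := by
  have h1 := max_support (x 0) (x 1) (by
    rintro ⟨h1, h2⟩
    apply hx
    funext i
    fin_cases i
    · exact h1
    · exact h2)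
  have h2 := max_support α.1 α.2 (by
    rintro ⟨h1, h2⟩
    exact hα (Prod.ext h1 h2))
  refine ((h1.union h2).union (fv_support_finite h)).subset fun v hv => ?_
  by_contra hcon
  rw [Set.mem_union, Set.mem_union, not_or, not_or] at hcon
  apply hv
  have e1 : max (fv v (x 0)) (fv v (x 1)) = 1 := not_not.1 hcon.1.1
  have e2 : max (fv v α.1) (fv v α.2) = 1 := not_not.1 hcon.1.2
  have e3 : fv v (x 0 * α.2 - x 1 * α.1) = 1 := not_not.1 hcon.2
  have e4 : lam v α x = Real.log (max (fv v (x 0)) (fv v (x 1)) * max (fv v α.1) (fv v α.2) /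
      fv v (x 0 * α.2 - x 1 * α.1)) / (Module.finrank ℚ K : ℝ) := rfl
  rw [e4, e1, e2, e3, mul_one, div_one, Real.log_one, zero_div]

end

/-- **Main theorem.** Let `K` be a number field, `Γ` a finitely generated subgroup of its
multiplicative group, `T` a finite set of primes, `α l` (`l < q`) distinct points of the projective line
over `K`, `r` and `m` natural numbers, `B` real and `ε > 0`. There are `δ > 0` and `C` such that for all
points `x` of the projective line different from the `α l` and nonzero `ρ`, `τ` in `K`, integral outside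
`T`, such that `x` and `ρ` are short and `∑ l, λ_v(α l, x) ≤ m * ord_v(ρ) + ord_v(τ)` for all primes `v`
outside `T`: `(q - 2 - ε) h(x)` is at most the sum of `ord_v(ρ) + ord_v(τ)` over the primes `v` outside
`T`, plus `C`; and if `ord_v(ρ)` is at most the sum of the truncated local heights of `x` for all `v`
outside `T`, then it is at most the truncated counting function of `x` plus the counting function of
`τ`, plus `C`. -/
theorem result (K : Type) [Field K] [NumberField K] (Γ : Subgroup Kˣ) (hΓ : Γ.FG)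
    (T : Set (HeightOneSpectrum (𝓞 K))) (hT : T.Finite) (q : ℕ) (α : Fin q → K × K)
    (hα0 : ∀ i, α i ≠ 0)
    (hα : ∀ i j, i ≠ j → (α i).1 * (α j).2 - (α i).2 * (α j).1 ≠ 0) (r m : ℕ) (B ε : ℝ)
    (hε : 0 < ε) :
    ∃ δ C : ℝ, 0 < δ ∧ ∀ (x : Fin 2 → K) (ρ τ : K), x ≠ 0 →
      (∀ l, x 0 * (α l).2 - x 1 * (α l).1 ≠ 0) → ρ ≠ 0 → τ ≠ 0 →
      (∀ v ∉ T, 0 ≤ ord v ρ) → (∀ v ∉ T, 0 ≤ ord v τ) →
      IsShortPoint Γ r (B * mulHeight x ^ δ) x → IsShort Γ r (B * mulHeight x ^ δ) ρ →
      (∀ v ∉ T, ∑ l, lam v (α l) x ≤ m * ord v ρ + ord v τ) →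
      ((q : ℝ) - 2 - ε) * h x ≤ (∑ᶠ (v : HeightOneSpectrum (𝓞 K)) (_ : v ∉ T), ord v ρ) +
          (∑ᶠ (v : HeightOneSpectrum (𝓞 K)) (_ : v ∉ T), ord v τ) + C ∧
      ((∀ v ∉ T, ord v ρ ≤ ∑ l, lam1 v (α l) x) →
        ((q : ℝ) - 2 - ε) * h x ≤
          (∑ᶠ (v : HeightOneSpectrum (𝓞 K)) (_ : v ∉ T), ∑ l, lam1 v (α l) x) +
          (∑ᶠ (v : HeightOneSpectrum (𝓞 K)) (_ : v ∉ T), ord v τ) + C) := by
  classical
  obtain ⟨δ, C, hδ, hmain⟩ := Pool.Agent.Run7.h720.p1_main K Γ hΓ T hT q α hα0 hα r m B ε hε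
  have hd : (0 : ℝ) < Module.finrank ℚ K := by
    exact_mod_cast Module.finrank_pos (R := ℚ) (M := K)
  refine ⟨δ, C / Module.finrank ℚ K, hδ, ?_⟩
  intro x ρ τ hx0 hxα hρ0 hτ0 hρT hτT hsx hsρ hdiv
  have hord : ∀ (v : HeightOneSpectrum (𝓞 K)) (z : K), z ≠ 0 → 0 ≤ ord v z → fv v z ≤ 1 := by
    intro v z hz hv
    have h1 : ord v z = -Real.log (fv v z) / (Module.finrank ℚ K : ℝ) := rfl
    rw [h1, le_div_iff₀ hd, zero_mul] at hv
    by_contra hcon
    push Not at hcon
    have := Real.log_pos hcon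
    linarith
  have hcnt : ∀ z : K, z ≠ 0 → Pool.Agent.Run7.h720.cnt T z / Module.finrank ℚ K =
      ∑ᶠ (v : HeightOneSpectrum (𝓞 K)) (_ : v ∉ T), ord v z := by
    intro z hz
    unfold Pool.Agent.Run7.h720.cnt
    rw [div_eq_mul_inv, finsum_mul' _ _ ?_]
    · refine finsum_congr fun v => ?_
      rw [finsum_eq_if, finsum_eq_if]
      split_ifs
      · rw [zero_mul]
      · rw [← div_eq_mul_inv]
        rfl
    · refine (Pool.Agent.Run7.h720.log_fv_support z hz).subset fun v hv h => hv ?_
      have h2 : Real.log (fv v z) = 0 := h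
      show ∑ᶠ (_ : v ∉ T), -Real.log (fv v z) = 0
      rw [h2, neg_zero]
      exact finsum_zero
  have key := hmain x ρ τ hx0 hxα hρ0 hτ0 (fun v hv => hord v ρ hρ0 (hρT v hv))
    (fun v hv => hord v τ hτ0 (hτT v hv)) hsx hsρ (by
      intro v hv
      have h1 := hdiv v hv
      have h2 : ∑ l, lam v (α l) x = (∑ l, Real.log (max (fv v (x 0)) (fv v (x 1)) *
        max (fv v (α l).1) (fv v (α l).2) / fv v (x 0 * (α l).2 - x 1 * (α l).1))) /
          (Module.finrank ℚ K : ℝ) := by
        rw [Finset.sum_div]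
        rfl
      have h3 : m * ord v ρ + ord v τ = (-(m * Real.log (fv v ρ) + Real.log (fv v τ))) /
          (Module.finrank ℚ K : ℝ) := by
        have e1 : ord v ρ = -Real.log (fv v ρ) / (Module.finrank ℚ K : ℝ) := rfl
        have e2 : ord v τ = -Real.log (fv v τ) / (Module.finrank ℚ K : ℝ) := rfl
        rw [e1, e2]
        ring
      rw [h2, h3] at h1
      exact (div_le_div_iff_of_pos_right hd).1 h1)
  have hfirst : ((q : ℝ) - 2 - ε) * h x ≤
      (∑ᶠ (v : HeightOneSpectrum (𝓞 K)) (_ : v ∉ T), ord v ρ) +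
          (∑ᶠ (v : HeightOneSpectrum (𝓞 K)) (_ : v ∉ T), ord v τ) + C / Module.finrank ℚ K := by
    rw [← hcnt ρ hρ0, ← hcnt τ hτ0, ← add_div, ← add_div]
    unfold h
    rw [← mul_div_assoc]
    exact div_le_div_of_nonneg_right key hd.le
  refine ⟨hfirst, fun hle => hfirst.trans ?_⟩
  have h5 : ∑ᶠ (v : HeightOneSpectrum (𝓞 K)) (_ : v ∉ T), ord v ρ ≤
      ∑ᶠ (v : HeightOneSpectrum (𝓞 K)) (_ : v ∉ T), ∑ l, lam1 v (α l) x := by
    refine finsum_le_finsum' ?_ ?_ fun v => ?_
    · refine (Pool.Agent.Run7.h720.log_fv_support ρ hρ0).subset fun v hv h => hv ?_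
      have h2 : Real.log (fv v ρ) = 0 := h
      have h3 : ord v ρ = 0 := by
        show -Real.log (fv v ρ) / (Module.finrank ℚ K : ℝ) = 0
        rw [h2, neg_zero, zero_div]
      show ∑ᶠ (_ : v ∉ T), ord v ρ = 0
      rw [h3]
      exact finsum_zero
    · have hfin : (⋃ l, {v : HeightOneSpectrum (𝓞 K) | lam v (α l) x ≠ 0}).Finite :=
        Set.finite_iUnion fun l => lam_support (α l) (hα0 l) x hx0 (hxα l)
      refine hfin.subset fun v hv => ?_
      by_contra hcon
      rw [Set.mem_iUnion] at hcon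
      push Not at hcon
      apply hv
      have h3 : ∀ l, lam1 v (α l) x = 0 := by
        intro l
        have h4 : lam v (α l) x = 0 := not_not.1 (hcon l)
        unfold lam1
        rw [h4]
        refine min_eq_left (div_nonneg (Real.log_nonneg ?_) hd.le)
        have h5 : Ideal.absNorm v.asIdeal ≠ 0 := fun h => v.ne_bot (Ideal.absNorm_eq_zero_iff.1 h)
        exact_mod_cast Nat.one_le_iff_ne_zero.2 h5
      show ∑ᶠ (_ : v ∉ T), ∑ l, lam1 v (α l) x = 0
      rw [Finset.sum_eq_zero fun l _ => h3 l]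
      exact finsum_zero
    · rw [finsum_eq_if, finsum_eq_if]
      split_ifs with hv
      · exact le_rfl
      · exact hle v hv
  linarith

end Pool.Agent.Results.MP_4d5ce1_nt.SparsePoints
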