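import Pool.Agent.Run7.h742.UN.Fin

/-!
# Vojta's truncated inequality at 100 per cent of the integral points of the line, uniformly in the
divisor

A divisor `D` of the projective line over `ℚ`, without the point at infinity, is given by polynomials
`f_1, …, f_r` in `ℤ[X]` of degrees `k_1, …, k_r` whose product has no multiple factor over `ℚ`. A point
of the line of denominator `m` is `x = t / m`; the integral points are those with `m = 1`. The
*value* of `f_j` at `x` is `m ^ (k_j) f_j (t / m)`, an integer. If the `f_j` are primitive and `t`, `m`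
are coprime, then the primes that divide the product of the values are those modulo which `x` lies on
`D`, so that the sum of `log p` over these primes outside `S` is the truncated counting function
`N_S^(1)(D, x)`.

We prove that for all `f_1, …, f_r` of the given degrees with coefficients of size at most `B ^ A`, for
all `m ≠ 0` of size at most `B ^ A`, all but at most `C B ^ (1 - c)` of the integers `t` with `|t| ≤ B`
satisfy `N_S^(1) ≥ θ log B` for every set of primes `S` of weight `∑_{p ∈ S} log p ≤ η log B`, as soon as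
`θ + η < ∑_j min (k_j, 2)`. The numbers `c > 0` and `C` depend only on the degrees, `A`, `θ` and `η`:
there is no dependence on the divisor, its discriminant or its bad primes, on `m` or on `S`, and a
divisor may have a height as large as `A log B`, for any `A`.

In the second part this gives, with the constant `0`, the inequality of the conjecture,
`(q - 2 - ε) h(x) ≤ N_S^(1)(D, x)`, for the divisor `D` of degree `q`, or for `D` together with the point
at infinity, if `∑_j max (k_j - 2, 0)` is at most `2` (respectively `1`): rational points, pairs of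
conjugate points, and in addition one cubic point, or (without infinity) two cubic points or one
quartic point.
-/

set_option autoImplicit false

namespace Pool.Agent.Results.MP_4d5ce1_nt.UniformIntegralPoints

open Polynomial

/-- the value `m ^ k f (t / m)` at the point `t / m` of a polynomial `f` of degree `k` -/
def value (k : ℕ) (f : ℤ[X]) (t m : ℤ) : ℤ :=
  ∑ i ∈ Finset.range (k + 1), f.coeff i * t ^ i * m ^ (k - i)

/-- the sum of `log p` over the primes `p` outside `S` that divide `a` -/
noncomputable def counting (S : Finset ℕ) (a : ℤ) : ℝ :=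
  ∑ p ∈ a.natAbs.primeFactors \ S, Real.log (p : ℝ)

/-- polynomials `f_1, …, f_r` of degrees `k_1, …, k_r`, with integral coefficients of size at most
`H`, whose product has no multiple factor over `ℚ` -/
structure Divisor {r : ℕ} (k : Fin r → ℕ) (H : ℤ) (f : Fin r → ℤ[X]) : Prop where
  /-- the degrees -/
  degree : ∀ j, (f j).natDegree = k j
  /-- the size of the coefficients -/
  size : ∀ j i, |(f j).coeff i| ≤ H
  /-- there is no multiple factor -/
  reduced : Squarefree ((∏ j, f j).map (Int.castRingHom ℚ))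

/-- the `t` with `|t| ≤ B` for which `t / m` is on the divisor, or
`∑_{p ∣ ∏_j f_j, p ∉ S} log p < θ log B` for some set `S` of weight at most `η log B` -/
def Exceptions {r : ℕ} (k : Fin r → ℕ) (f : Fin r → ℤ[X]) (m : ℤ) (η θ : ℝ) (B : ℕ) : Set ℤ :=
  {t | |t| ≤ B ∧ ((∃ j, value (k j) (f j) t m = 0) ∨ ∃ S : Finset ℕ,
    ∑ p ∈ S, Real.log (p : ℝ) ≤ η * Real.log B ∧
      counting S (∏ j, value (k j) (f j) t m) < θ * Real.log B)}

/-- the `t` with `|t| ≤ B` for which `x = t / m` is on the divisor, or the inequality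
`(q - 2 - ε) h(x) ≤ N_S^(1)(x)` fails for some set `S` of weight at most `η log B`. Here `e` is `0` or
`1`, `q = ∑_j k_j + e`, the height `h(x)` is replaced by the (not smaller) `log max (|t|, |m|)`, and for
`e = 1` the primes that divide `m` are counted too: the point at infinity is added to the divisor. -/
def Failures {r : ℕ} (k : Fin r → ℕ) (f : Fin r → ℤ[X]) (m : ℤ) (e : ℕ) (η ε : ℝ) (B : ℕ) : Set ℤ :=
  {t | |t| ≤ B ∧ ((∃ j, value (k j) (f j) t m = 0) ∨ ∃ S : Finset ℕ,
    ∑ p ∈ S, Real.log (p : ℝ) ≤ η * Real.log B ∧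
      counting S (m ^ e * ∏ j, value (k j) (f j) t m) <
        ((∑ j, k j + e : ℕ) - 2 - ε) * Real.log (max |t| |m| : ℤ))}

theorem eq_exc {r : ℕ} (k : Fin r → ℕ) (f : Fin r → ℤ[X]) (m : ℤ) (η θ : ℝ) (B : ℕ) :
    Exceptions k f m η θ B =
      Run7.h742.UN.Exc (fun j => Run7.h742.UN.scale (k j) m (f j)) η θ B := by
  unfold Exceptions Run7.h742.UN.Exc
  simp only [Run7.h742.UN.scale_eval]
  rfl

theorem counting_nonneg (S : Finset ℕ) (a : ℤ) : 0 ≤ counting S a :=
  Finset.sum_nonneg fun p _ => Real.log_natCast_nonneg p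

theorem counting_mono (S : Finset ℕ) {a b : ℤ} (hb : b ≠ 0) (h : a ∣ b) :
    counting S a ≤ counting S b := by
  refine Finset.sum_le_sum_of_subset_of_nonneg (Finset.sdiff_subset_sdiff ?_ le_rfl)
    (fun p _ _ => Real.log_natCast_nonneg p)
  exact Nat.primeFactors_mono (Int.natAbs_dvd_natAbs.2 h) (Int.natAbs_ne_zero.2 hb)

/-- **Vojta's truncated inequality for 100 per cent of the integral points, and of the points of any
given denominator, of the projective line over `ℚ`, uniformly in the divisor and in `S`.** -/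
theorem result {r : ℕ} (k : Fin r → ℕ) (hk : ∀ j, 1 ≤ k j) (A : ℕ) :
    (∀ θ η : ℝ, θ + η < ∑ j, ((min (k j) 2 : ℕ) : ℝ) →
      ∃ c : ℝ, 0 < c ∧ ∃ C : ℝ, 0 < C ∧ ∀ B : ℕ, 1 ≤ B → ∀ f : Fin r → ℤ[X],
        Divisor k ((B : ℤ) ^ A) f → ∀ m : ℤ, m ≠ 0 → |m| ≤ (B : ℤ) ^ A →
          ((Exceptions k f m η θ B).ncard : ℝ) ≤ C * (B : ℝ) ^ (1 - c)) ∧
    (∀ e : ℕ, e ≤ 1 → ∑ j, (k j - 2) + e ≤ 2 → ∀ ε η : ℝ, 0 < ε → η < ε →
      ∃ c : ℝ, 0 < c ∧ ∃ C : ℝ, 0 < C ∧ ∀ B : ℕ, 1 ≤ B → ∀ f : Fin r → ℤ[X],
        Divisor k ((B : ℤ) ^ A) f → ∀ m : ℤ, m ≠ 0 → |m| ≤ B →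
          ((Failures k f m e η ε B).ncard : ℝ) ≤ C * (B : ℝ) ^ (1 - c)) := by
  refine ⟨fun θ η hθ => ?_, fun e he hke ε η hε hη => ?_⟩
  · obtain ⟨c, hc, C, hC, h⟩ := Run7.h742.UN.final_den k hk A θ η hθ
    refine ⟨c, hc, C, hC, fun B hB f hf m hm hmB => ?_⟩
    rw [eq_exc]
    exact h B hB f hf.degree hf.size hf.reduced m hm hmB
  · have hsum : (((∑ j, k j + e : ℕ) : ℝ) - 2 - ε) + η < ∑ j, ((min (k j) 2 : ℕ) : ℝ) := by
      have h1 : ∑ j, k j + e ≤ ∑ j, min (k j) 2 + 2 := by
        have h2 : ∑ j, k j = ∑ j, min (k j) 2 + ∑ j, (k j - 2) := by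
          rw [← Finset.sum_add_distrib]
          exact Finset.sum_congr rfl fun j _ => by omega
        omega
      have h3 : ((∑ j, k j + e : ℕ) : ℝ) ≤ ((∑ j, min (k j) 2 + 2 : ℕ) : ℝ) := by exact_mod_cast h1
      push_cast at h3 ⊢
      linarith
    obtain ⟨c, hc, C, hC, h⟩ := Run7.h742.UN.final_den k hk (A + 1)
      (((∑ j, k j + e : ℕ) : ℝ) - 2 - ε) η hsum
    refine ⟨c, hc, C, hC, fun B hB f hf m hm hmB => ?_⟩
    have hBZ : (1 : ℤ) ≤ (B : ℤ) := by exact_mod_cast hB
    have hmB' : |m| ≤ (B : ℤ) ^ (A + 1) :=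
      hmB.trans (by
        calc (B : ℤ) = (B : ℤ) ^ 1 := (pow_one _).symm
          _ ≤ _ := pow_le_pow_right₀ hBZ (by omega))
    have h4 := h B hB f hf.degree (fun j i => (hf.size j i).trans
      (pow_le_pow_right₀ hBZ (by omega))) hf.reduced m hm hmB'
    rw [← eq_exc] at h4
    refine le_trans ?_ h4
    have hfin : (Exceptions k f m η (((∑ j, k j + e : ℕ) : ℝ) - 2 - ε) B).Finite := by
      rw [eq_exc]
      exact Run7.h742.UN.Exc_finite _ _ _ _
    have hsub : Failures k f m e η ε B ⊆
        Exceptions k f m η (((∑ j, k j + e : ℕ) : ℝ) - 2 - ε) B := by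
      rintro t ⟨htB, ht⟩
      refine ⟨htB, ?_⟩
      by_cases h0 : ∃ j, value (k j) (f j) t m = 0
      · exact Or.inl h0
      rcases ht with ht | ⟨S, hS, hlt⟩
      · exact Or.inl ht
      refine Or.inr ⟨S, hS, ?_⟩
      push Not at h0
      have hne : m ^ e * ∏ j, value (k j) (f j) t m ≠ 0 :=
        mul_ne_zero (pow_ne_zero _ hm) (Finset.prod_ne_zero_iff.2 fun j _ => h0 j)
      have h5 : counting S (∏ j, value (k j) (f j) t m) ≤
          counting S (m ^ e * ∏ j, value (k j) (f j) t m) :=
        counting_mono S hne (dvd_mul_left _ _)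
      have hmax1 : 1 ≤ max |t| |m| := le_max_of_le_right (Int.one_le_abs hm)
      have hmaxB : max |t| |m| ≤ (B : ℤ) := max_le htB hmB
      have hl0 : 0 ≤ Real.log ((max |t| |m| : ℤ) : ℝ) :=
        Real.log_nonneg (by exact_mod_cast hmax1)
      have hlB : Real.log ((max |t| |m| : ℤ) : ℝ) ≤ Real.log B := by
        refine Real.log_le_log (by exact_mod_cast (lt_of_lt_of_le one_pos hmax1)) ?_
        exact_mod_cast hmaxB
      rcases le_or_gt 0 ((((∑ j, k j + e : ℕ) : ℝ) - 2 - ε)) with hp | hn
      · exact h5.trans_lt (hlt.trans_le (mul_le_mul_of_nonneg_left hlB hp))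
      · exfalso
        have h6 := counting_nonneg S (m ^ e * ∏ j, value (k j) (f j) t m)
        have h7 := mul_nonpos_of_nonpos_of_nonneg hn.le hl0
        linarith
    exact_mod_cast Set.ncard_le_ncard hsub hfin

end Pool.Agent.Results.MP_4d5ce1_nt.UniformIntegralPoints
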